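import Pool.Agent.Helper37_BSig.Stmts

/-! Module FreshReal. -/

namespace Pool.Agent.BSig.H21

open Filter Cardinal Pool.Agent.BSig

theorem freshReal_proof (hcard : CardStmt) : FreshReal := by
  classical
  intro P R Free hP hdep hint hdec hb hreal Y hY
  have hPm : ∀ {N N' : ℕ}, N ≤ N' → P N ≤ P N' := fun h => monotone_nat_of_le_succ hP h
  have hdec' : ∀ {N N' : ℕ} {v}, N ≤ N' → R N' v → R N v := by
    intro N N' v h
    induction h with
    | refl => exact id
    | step _ ih => exact fun hp => ih (hdec _ _ hp)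
  choose Rn hRn using hint
  choose b hb using hb
  -- restriction to the first coordinates
  have hres : ∀ N (v : ℕ → MM), R N v ↔ R N (ext (fun i : Fin (P N) => v i)) := by
    intro N v
    have e : ∀ p < P N, v p = ext (fun i : Fin (P N) => v i) p := by
      intro p hp
      simp [ext, hp]
    exact ⟨hdep N _ _ e, hdep N _ _ (fun p hp => (e p hp).symm)⟩
  let Q : ℕ → ℕ → (ℕ → ℕ → ℕ) → Prop := fun N n σ =>
    (∀ k < N, ∀ N' ≤ N, Rn N' n (fun i => σ k i) ∧ ∀ p < P N', σ k p ≤ tow (b N') n) ∧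
      ∀ k < N, ∀ k' < N, k ≠ k' → ∀ p ∈ Free, p < P N → ∀ p' ∈ Free, p' < P N →
        σ k p ≠ σ k' p'
  have hQdec : ∀ N n σ, Q (N + 1) n σ → Q N n σ := by
    rintro N n σ ⟨h1, h2⟩
    refine ⟨fun k hk N' hN' => h1 k (by omega) N' (by omega), ?_⟩
    intro k hk k' hk' hne p hp hpN p' hp' hpN'
    exact h2 k (by omega) k' (by omega) hne p hp (lt_of_lt_of_le hpN (hP N)) p' hp'
      (lt_of_lt_of_le hpN' (hP N))
  have hsat : ∀ N, ∀ᶠ n in (UU : Filter ℕ), ∃ σ, Q N n σ := by
    intro N
    obtain ⟨f, hf1, hf2⟩ := hreal N N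
    have hA : ∀ k ∈ Finset.range N, ∀ᶠ n in (UU : Filter ℕ), ∀ N' ∈ Finset.range (N + 1),
        Rn N' n (fun i => rep (f k i) n) ∧ ∀ p ∈ Finset.range (P N'),
          rep (f k p) n ≤ tow (b N') n := by
      intro k hk
      rw [Finset.mem_range] at hk
      rw [eventually_all_finset]
      intro N' hN'
      rw [Finset.mem_range] at hN'
      have hR : R N' (f k) := hdec' (Nat.lt_succ_iff.1 hN') (hf1 k hk)
      refine Eventually.and ?_ ?_
      · have h1 := (hres N' (f k)).1 hR
        have h2 := (hRn N' (fun i => rep (f k i)) (fun i => bdd_rep _)).1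
          (by simpa only [mk_rep] using h1)
        exact h2
      · rw [eventually_all_finset]
        intro p hp
        rw [Finset.mem_range] at hp
        have h3 := hb N' (f k) hR p hp
        rw [← mk_rep (f k p), aa, mk_le] at h3
        exact h3
    have hB : ∀ᶠ n in (UU : Filter ℕ), ∀ k ∈ Finset.range N, ∀ k' ∈ Finset.range N,
        ∀ p ∈ Finset.range (P N), ∀ p' ∈ Finset.range (P N), k ≠ k' → p ∈ Free → p' ∈ Free →
          rep (f k p) n ≠ rep (f k' p') n := by
      rw [eventually_all_finset]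
      intro k hk
      rw [eventually_all_finset]
      intro k' hk'
      rw [eventually_all_finset]
      intro p hp
      rw [eventually_all_finset]
      intro p' hp'
      rw [Finset.mem_range] at hk hk' hp hp'
      by_cases hne : k ≠ k' ∧ p ∈ Free ∧ p' ∈ Free
      · have h := hf2 k hk k' hk' hne.1 p hne.2.1 hp p' hne.2.2 hp'
        rw [← mk_rep (f k p), ← mk_rep (f k' p'), Ne, mk_eq, not_eventually'] at h
        filter_upwards [h] with n hn _ _ _
        exact hn
      · exact Eventually.of_forall fun n h1 h2 h3 => absurd ⟨h1, h2, h3⟩ hne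
    have hA' := (eventually_all_finset (Finset.range N)).2 hA
    filter_upwards [hA', hB] with n h1 h2
    refine ⟨fun k p => rep (f k p) n, ?_, ?_⟩
    · intro k hk N' hN'
      have h := h1 k (Finset.mem_range.2 hk) N' (Finset.mem_range.2 (Nat.lt_succ_of_le hN'))
      exact ⟨h.1, fun p hp => h.2 p (Finset.mem_range.2 hp)⟩
    · intro k hk k' hk' hne p hp hpN p' hp' hpN'
      exact h2 k (Finset.mem_range.2 hk) k' (Finset.mem_range.2 hk') p (Finset.mem_range.2 hpN) p'
        (Finset.mem_range.2 hpN') hne hp hp'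
  obtain ⟨σ, ν, hν, hνn, hσν, hσ⟩ := saturation Q hQdec hsat
  have hQle : ∀ {N N' n σ}, N ≤ N' → Q N' n σ → Q N n σ := by
    intro N N' n σ h
    induction h with
    | refl => exact id
    | step _ ih => exact fun hp => ih (hQdec _ _ _ hp)
  have hνb : Bdd ν := ⟨0, Eventually.of_forall fun n => by
    have := hνn n
    simp only [tow]
    omega⟩
  have hinfl : Infl (mk ν hνb) := by
    intro m
    rw [natCast_mk, mk_lt]
    filter_upwards [hν (m + 1)] with n hn
    omega
  -- the realizations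
  let Z : MM → ℕ → MM := fun x p =>
    if h : Bdd (fun n => σ n (rep x n) p) then mk _ h else 0
  have hlt : ∀ x : MM, x < mk ν hνb → ∀ᶠ n in (UU : Filter ℕ), rep x n < ν n := by
    intro x hx
    rw [← mk_rep x, mk_lt] at hx
    exact hx
  have hbdd : ∀ x : MM, x < mk ν hνb → ∀ N, ∀ p < P N, Bdd (fun n => σ n (rep x n) p) := by
    intro x hx N p hp
    refine bdd_of_le (bdd_tow (b N)) ?_
    filter_upwards [hlt x hx, hν N, hσν] with n h1 h2 h3
    exact ((h3.1 (rep x n) h1 N h2).2 p hp)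
  have hZ : ∀ (x : MM) (hx : x < mk ν hνb) (N p : ℕ) (hp : p < P N),
      Z x p = mk (fun n => σ n (rep x n) p) (hbdd x hx N p hp) := by
    intro x hx N p hp
    simp only [Z]
    rw [dif_pos (hbdd x hx N p hp)]
  have hRZ : ∀ x : MM, x < mk ν hνb → ∀ N, R N (Z x) := by
    intro x hx N
    rw [hres]
    have e : (fun i : Fin (P N) => Z x i) =
        fun i : Fin (P N) => mk (fun n => σ n (rep x n) i) (hbdd x hx N i i.2) := by
      funext i
      exact hZ x hx N i i.2
    rw [e]
    have h := (hRn N (fun i : Fin (P N) => fun n => σ n (rep x n) i)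
      (fun i => hbdd x hx N i i.2)).2 (by
        filter_upwards [hlt x hx, hν N, hσν] with n h1 h2 h3
        exact (h3.1 (rep x n) h1 N h2).1)
    exact h
  have hinj : ∀ x x' : MM, x < mk ν hνb → x' < mk ν hνb → x ≠ x' →
      ∀ p ∈ Free, (∃ N, p < P N) → ∀ p' ∈ Free, (∃ N, p' < P N) → Z x p ≠ Z x' p' := by
    rintro x x' hx hx' hne p hp ⟨N, hN⟩ p' hp' ⟨N', hN'⟩
    rw [hZ x hx N p hN, hZ x' hx' N' p' hN', Ne, mk_eq, not_eventually']
    have hne' : ∀ᶠ n in (UU : Filter ℕ), ¬ rep x n = rep x' n := by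
      rw [← not_eventually', ← mk_eq (hf := bdd_rep x) (hg := bdd_rep x'), mk_rep, mk_rep]
      exact hne
    filter_upwards [hlt x hx, hlt x' hx', hν (max N N'), hσν, hne'] with n h1 h2 h3 h4 h5
    refine h4.2 _ h1 _ h2 h5 p hp ?_ p' hp' ?_
    · exact lt_of_lt_of_le hN (hPm ((le_max_left _ _).trans h3))
    · exact lt_of_lt_of_le hN' (hPm ((le_max_right _ _).trans h3))
  by_contra hcon
  push Not at hcon
  have hbad : ∀ x : {x : MM | x < mk ν hνb}, ∃ p ∈ Free, (∃ N, p < P N) ∧ Z x.1 p ∈ Y :=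
    fun x => hcon (Z x.1) (hRZ x.1 x.2)
  choose q hq1 hq2 hq3 using hbad
  have hle : #{x : MM | x < mk ν hνb} ≤ #Y := by
    refine Cardinal.mk_le_of_injective (f := fun x => (⟨Z x.1 (q x), hq3 x⟩ : Y)) ?_
    intro x x' hxx
    by_contra hne
    have hne' : x.1 ≠ x'.1 := fun h => hne (Subtype.ext h)
    exact hinj x.1 x'.1 x.2 x'.2 hne' (q x) (hq1 x) (hq2 x) (q x') (hq1 x') (hq2 x')
      (congrArg Subtype.val hxx)
  rw [hcard.2 _ hinfl] at hle
  exact absurd hY (not_lt.2 hle)

end Pool.Agent.BSig.H21
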