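import Pool.Agent.Helper37_BSig.Stmts

/-! Module LemmaGen. -/

namespace Pool.Agent.BSig.H21

open Filter Cardinal Pool.Agent.BSig

theorem lemmaGen_proof : LemmaGen := by
  classical
  intro X R _ hR O hmono hext
  choose! e he using hext
  obtain ⟨s, wo, hs⟩ := Cardinal.exists_ord_eq R
  have hseg : ∀ r : R, #{r' // s r' r} < continuum := by
    intro r
    refine lt_of_lt_of_le ?_ hR
    have h := Cardinal.card_typein_lt (r := s) r hs
    rwa [Ordinal.card_typein] at h
  let F : ∀ r : R, (∀ r' : R, s r' r → Set (X × Bool)) → Set (X × Bool) := fun r ih =>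
    if Consis (⋃ r' : {r' // s r' r}, ih r'.1 r'.2) ∧
        #(⋃ r' : {r' // s r' r}, ih r'.1 r'.2 : Set (X × Bool)) < continuum
      then e r (⋃ r' : {r' // s r' r}, ih r'.1 r'.2) \ (⋃ r' : {r' // s r' r}, ih r'.1 r'.2)
      else ∅
  have hwf : WellFounded s := wo.wf
  let E : R → Set (X × Bool) := hwf.fix F
  let U : R → Set (X × Bool) := fun r => ⋃ r' : {r' // s r' r}, E r'.1
  have hE : ∀ r, E r = if Consis (U r) ∧ #(U r) < continuum then e r (U r) \ U r else ∅ :=
    fun r => hwf.fix_eq F r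
  have hcount : ∀ r, (E r).Countable := by
    intro r
    rw [hE]
    split_ifs with h
    · exact (he r (U r) h.1 h.2).2.2.1
    · exact Set.countable_empty
  have hcard : ∀ r, #(U r) < continuum := by
    intro r
    refine lt_of_le_of_lt (Cardinal.mk_iUnion_le_sum_mk) ?_
    refine lt_of_le_of_lt (Cardinal.sum_le_sum _ (fun _ => ℵ₀)
      (fun i => (hcount i.1).le_aleph0)) ?_
    rw [Cardinal.sum_const']
    exact Cardinal.mul_lt_of_lt Cardinal.aleph0_le_continuum (hseg r) Cardinal.aleph0_lt_continuum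
  have hstep : ∀ r, Consis (U r) → U r ∪ E r = e r (U r) := by
    intro r hc
    rw [hE, if_pos ⟨hc, hcard r⟩, Set.union_sdiff_self]
    exact Set.union_eq_right.2 (he r (U r) hc (hcard r)).1
  have htri : ∀ (P : R → Prop), (∀ r, P r → Consis (U r ∪ E r)) →
      Consis {p | ∃ r, P r ∧ p ∈ E r} := by
    rintro P hP ⟨x, b, ⟨r1, h1, m1⟩, ⟨r2, h2, m2⟩⟩
    rcases trichotomous_of s r1 r2 with h | h | h
    · exact hP r2 h2 ⟨x, b, Or.inl (Set.mem_iUnion.2 ⟨⟨r1, h⟩, m1⟩), Or.inr m2⟩
    · subst h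
      exact hP r1 h1 ⟨x, b, Or.inr m1, Or.inr m2⟩
    · exact hP r1 h1 ⟨x, b, Or.inr m1, Or.inl (Set.mem_iUnion.2 ⟨⟨r2, h⟩, m2⟩)⟩
  have hall : ∀ r, Consis (U r) ∧ Consis (U r ∪ E r) := by
    intro r
    induction r using hwf.induction with
    | _ r ih =>
      have h1 : Consis (U r) := by
        have h := htri (fun r' => s r' r) (fun r' hr' => (ih r' hr').2)
        have e1 : U r = {p | ∃ r', s r' r ∧ p ∈ E r'} := by
          ext p
          constructor
          · intro hp
            obtain ⟨⟨r', hr'⟩, hp⟩ := Set.mem_iUnion.1 hp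
            exact ⟨r', hr', hp⟩
          · rintro ⟨r', hr', hp⟩
            exact Set.mem_iUnion.2 ⟨⟨r', hr'⟩, hp⟩
        rw [e1]
        exact h
      refine ⟨h1, ?_⟩
      rw [hstep r h1]
      exact (he r (U r) h1 (hcard r)).2.1
  have hfin : Consis {p | ∃ r, True ∧ p ∈ E r} := htri (fun _ => True) (fun r _ => (hall r).2)
  refine ⟨{x | ∃ r, (x, true) ∈ E r}, fun r => ?_⟩
  have hr := (he r (U r) (hall r).1 (hcard r)).2.2.2
  refine hmono r _ _ hr ?_
  rw [← hstep r (hall r).1]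
  have hsub : ∀ r', E r' ⊆ gr {x | ∃ r, (x, true) ∈ E r} := by
    rintro r' ⟨x, b⟩ hx
    show b = true ↔ ∃ r, (x, true) ∈ E r
    constructor
    · rintro rfl
      exact ⟨r', hx⟩
    · rintro ⟨r2, h2⟩
      by_contra hb
      have hb' : b = false := by simpa using hb
      subst hb'
      exact hfin ⟨x, true, ⟨r2, trivial, h2⟩, ⟨r', trivial, hx⟩⟩
  refine Set.union_subset ?_ (hsub r)
  intro p hp
  obtain ⟨⟨r', hr'⟩, hp⟩ := Set.mem_iUnion.1 hp
  exact hsub r' hp

end Pool.Agent.BSig.H21
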